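import Mathlib
import Pool.Agent.Helper61.UC.Ring
import Pool.Agent.Helper61.DG.Main

/-!
# Dynamical Mordell-Lang for curves, uniformly in the point: one preperiod and one period for all
# integral points

Let `K ⊂ ℂ` be a number field and let `Φ` be a polynomial self-map of `A^N` over `K`, given by
polynomials of degree at most `d ≥ 2` whose homogeneous parts of degree `d` have no common
nontrivial zero (so `Φ` extends to an endomorphism of `P^N` of degree `d`). Let `F` be the self-map
of `A^N` given by the forms of degree `d`; it induces the map of `Φ` on the hyperplane at infinity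
`H = P^(N-1)`. Let `Z ⊂ H` be the set of the points `z` of degree at most two over `K` which are
periodic for `F` and have multiplicity at least `d^k` for every period `k`: the multiplicity of the
solution `Y = z` of the system `F^k (Y) = F^k (z)`, the local degree of `F^k : H → H` at `z`.

The set `Z` is finite, and it is EMPTY for generic `Φ`: for all `N` and `d` there is a nonzero
polynomial `Ψ` with integral coefficients in the coefficients of the forms of degree `d` such that `Z`
is empty for all `K` and all `Φ` over `K` with `Ψ (Φ) ≠ 0`.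

Let `V` be a closed set of `A^N` over `ℂ` of dimension at most one whose closure in `P^N` does not
meet `Z`, and let `R ⊂ K` be a finitely generated ring. There are `n₀` and `Q > 0` such that for ALL
`α ∈ R^N` and all `n ≥ n₀`: `Φ^n (α) ∈ V` if and only if `Φ^(n+Q) (α) ∈ V`. So the return set is the
union of a subset of `[0, n₀)` and of progressions with the difference `Q` which start in `[n₀, n₀ + Q)`,
with `n₀` and `Q` independent of `α`. If `V` contains no periodic curve then there are at most `n₀`
return times, for all `α ∈ R^N` with an infinite orbit.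

## Sketch of the proof

Suppose that there are no such `n₀`, `Q`. Then there are points `α_j ∈ R^N` and times `τ_j → ∞`
with `x_j = Φ^(τ_j) (α_j) ∈ V`, and `Φ^(τ_j + Q) (α_j) ∉ V` (or the same with `τ_j + Q` and `τ_j`
exchanged), `Q` a multiple of all periods in question. If the `x_j` are constant along a nonprincipal
ultrafilter then the sizes of the `α_j` are bounded, they are constant and have a finite orbit; there
are only finitely many such points in `R^N` (`Helper61/UC/Pre`). Otherwise the growth of the
`x_j` at the places of `S` is measured by the sum of the logarithms of their sizes, which tends to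
infinity, and the closures `C_l` of the sequences `Φ^(τ_j - l) (α_j)` along the ultrafilter are curves
with `Φ (C_(l+1)) ⊆ C_l` (`Helper61/UC/Lev`). As for a single orbit (`Helper26/RC`, `Helper52/RP`,
with the subspace theorem, Northcott's theorem, and Siegel's lemma and the product formula at a
superattracting point at infinity of small local degree) all `C_l` with `l` large and divisible by
`k` belong to a finite set of curves; since `C_l` is the image of `C_(l+1)`, the sequence `C_l` is
periodic (`Helper61/UC/Main`). The component `C_0` of `V` is stable under `Φ^Q`, and `C_Q = C_0`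
(`Helper61/UC/Asm`). Finiteness of `Z`, the reduction from `V` over `ℂ` to `K`: `Helper61/DC`. Generic
`Φ`: `Helper61/DG` (elimination, and an example for which the local degrees of all iterates are
bounded).
-/

namespace Pool.Agent.Results.MP_295d38_ag.UniformCurves

open MvPolynomial
open scoped LinearAlgebra.Projectivization

section multiplicity

variable {F : Type} [Field F] {N : ℕ}

/-- The maximal ideal of the point `z` of `A^N`. -/
noncomputable def pointIdeal (z : Fin N → F) : Ideal (MvPolynomial (Fin N) F) :=
  RingHom.ker (eval z)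

instance (z : Fin N → F) : (pointIdeal z).IsPrime := RingHom.ker_isPrime _

/-- The multiplicity of the solution `Y = z` of the system of equations `G i (Y) = G i (z)`: the
dimension over `F` of the quotient of the local ring of `A^N` at `z` by the ideal generated by the
`G i (Y) - G i (z)`. -/
noncomputable def localMult (G : Fin N → MvPolynomial (Fin N) F) (z : Fin N → F) : Cardinal :=
  Module.rank F (Localization.AtPrime (pointIdeal z) ⧸
    (Ideal.span (Set.range fun i => G i - C (eval z (G i)))).map
      (algebraMap (MvPolynomial (Fin N) F) (Localization.AtPrime (pointIdeal z))))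

end multiplicity

variable {K : Type} [Field K] {N : ℕ}

/-- The polynomial self-map of affine space with the coordinates `Φ i`. -/
noncomputable def polyMap (Φ : Fin N → MvPolynomial (Fin N) K) (x : Fin N → K) : Fin N → K :=
  fun i => eval x (Φ i)

section extension

variable (L : Type) [Field L] [Algebra K L]

/-- The homogeneous part of degree `d` of `Φ i`, as a polynomial over the extension field `L`. -/
noncomputable def topForm (d : ℕ) (Φ : Fin N → MvPolynomial (Fin N) K) (i : Fin N) :
    MvPolynomial (Fin N) L :=
  homogeneousComponent d (MvPolynomial.map (algebraMap K L) (Φ i))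

/-- The coordinate `i` of the `k`-th iterate of the self-map of `A^N` given by the forms of degree
`d`: a form of degree `d ^ k`. -/
noncomputable def topIter (d : ℕ) (Φ : Fin N → MvPolynomial (Fin N) K) (k : ℕ) (i : Fin N) :
    MvPolynomial (Fin N) L :=
  (bind₁ (topForm L d Φ))^[k] (X i)

variable {L}

/-- `k > 0` is a period of the point of the hyperplane at infinity represented by `z`. -/
def IsPeriod (d : ℕ) (Φ : Fin N → MvPolynomial (Fin N) K) (k : ℕ) (z : Fin N → L) : Prop :=
  0 < k ∧ ∃ c : L, c ≠ 0 ∧ ∀ i, eval z (topIter L d Φ k i) = c * z i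

end extension

section complex

variable [Algebra K ℂ]

/-- `Φ` has degree at most `d`, and the homogeneous parts of degree `d` of the `Φ i` have no common
nontrivial zero: `Φ` extends to an endomorphism of degree `d` of projective space. -/
def RegularAtInfinity (d : ℕ) (Φ : Fin N → MvPolynomial (Fin N) K) : Prop :=
  (∀ i, (Φ i).totalDegree ≤ d) ∧
    ∀ z : Fin N → ℂ, (∀ i, aeval z (homogeneousComponent d (Φ i)) = 0) → z = 0

/-- The exceptional set `Z` in the complex hyperplane at infinity: the points represented by a vector
`z` over an extension `L` of `K` of degree at most two, embedded in `ℂ` by `j`, which are periodic and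
whose multiplicity is at least `d ^ k` for every period `k`. -/
def exceptional (d : ℕ) (Φ : Fin N → MvPolynomial (Fin N) K) : Set (ℙ ℂ (Fin N → ℂ)) :=
  {p | ∃ (L : Type) (_ : Field L) (_ : Algebra K L) (j : L →ₐ[K] ℂ) (z : Fin N → L)
    (h : (fun i => j (z i)) ≠ 0), FiniteDimensional K L ∧ Module.finrank K L ≤ 2 ∧
      p = Projectivization.mk ℂ (fun i => j (z i)) h ∧ (∃ k, IsPeriod d Φ k z) ∧
      ∀ k, IsPeriod d Φ k z → ((d ^ k : ℕ) : Cardinal) ≤ localMult (topIter L d Φ k) z}

/-- The set of return times of the orbit of `α`, a point over `K`, to the zero set in `A^N` over `ℂ` of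
the ideal `I`. -/
def returnSet (Φ : Fin N → MvPolynomial (Fin N) K) (α : Fin N → K)
    (I : Ideal (MvPolynomial (Fin N) ℂ)) : Set ℕ :=
  {n | ∀ f ∈ I, eval (fun i => algebraMap K ℂ ((polyMap Φ)^[n] α i)) f = 0}

end complex

/-- The zero set of `I` has dimension at most one: the coordinate rings of its irreducible closed
subsets have transcendence degree at most one over `ℂ`. -/
def DimLEOne (I : Ideal (MvPolynomial (Fin N) ℂ)) : Prop :=
  ∀ P : Ideal (MvPolynomial (Fin N) ℂ), P.IsPrime → I ≤ P →
    Algebra.trdeg ℂ (MvPolynomial (Fin N) ℂ ⧸ P) ≤ 1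

/-- The point `p` of the hyperplane at infinity is in the closure of the zero set of `I` in projective
space: the forms of highest degree of all elements of `I` vanish at `p`. -/
def IsPointAtInfinity (I : Ideal (MvPolynomial (Fin N) ℂ)) (p : ℙ ℂ (Fin N → ℂ)) : Prop :=
  ∀ f ∈ I, eval p.rep (homogeneousComponent f.totalDegree f) = 0

/-- The indices of the coefficients of the forms of degree `d`: `(i, s)` is the index of the
coefficient of the monomial with the exponents `s` in the coordinate `i`. -/
abbrev TopCoeff (N d : ℕ) : Type := Fin N × {s : Fin N →₀ ℕ // s.degree = d}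

private theorem off [NumberField K] [Algebra K ℂ] {d : ℕ} (hd : 2 ≤ d)
    (Φ : Fin N → MvPolynomial (Fin N) K) (hΦ : RegularAtInfinity d Φ) :
    (exceptional d Φ).Finite ∧
      ∀ (I : Ideal (MvPolynomial (Fin N) ℂ)), DimLEOne I →
        (∀ p ∈ exceptional d Φ, ¬ IsPointAtInfinity I p) → ∀ R : Subalgebra ℤ K, R.FG →
          ∃ n₀ Q : ℕ, 0 < Q ∧ ∀ α : Fin N → K, (∀ i, α i ∈ R) → ∀ n, n₀ ≤ n →
            (n ∈ returnSet Φ α I ↔ n + Q ∈ returnSet Φ α I) := by
  have hreg : Pool.Agent.Helper26.RC.Reg ℂ d Φ := ⟨hΦ.1, fun z hz => hΦ.2 z fun i => congrFun hz i⟩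
  constructor
  · refine (Pool.Agent.Helper61.DC.finite_per hd hreg).subset ?_
    rintro p ⟨L, iF, iA, j, z, h, hL1, hL2, hp, ⟨k, hk, hk'⟩, -⟩
    exact ⟨L, iF, iA, j, z, h, hL1, hL2, hp, k, hk, hk'⟩
  · intro I hI hZ R hR
    exact Pool.Agent.Helper61.UC.curvesU hd hreg hR I hI (by
      intro L iF iA j z hL1 hL2 hz hinf hper
      obtain ⟨k0, hk0, h0⟩ := hper
      by_contra hcon
      have hne : (fun i => j (z i)) ≠ 0 := by
        intro h
        apply hz
        funext i
        exact (map_eq_zero j).1 (congrFun h i)
      refine hZ (Projectivization.mk ℂ _ hne) ⟨L, iF, iA, j, z, hne, hL1, hL2, rfl, ⟨k0, hk0, h0⟩, ?_⟩ ?_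
      · intro k hk
        by_contra hlt
        exact hcon ⟨k, hk.1, hk.2, not_le.1 hlt⟩
      · intro f hf
        obtain ⟨a, ha⟩ := Projectivization.exists_smul_eq_mk_rep ℂ _ hne
        rw [← ha]
        have h1 := Pool.Agent.Helper61.DC.eval_smul_hom
          (homogeneousComponent_isHomogeneous f.totalDegree f) (a : ℂ) (fun i => j (z i))
        rw [hinf f hf, mul_zero] at h1
        exact h1)

/-- For each `N` and `d` there is a nonzero polynomial `Ψ` over `ℤ` in the coefficients of the forms of
degree `d` such that for all number fields `K` in `ℂ` and all `Φ` over `K` of degree at most `d`: if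
`Ψ (Φ) ≠ 0` then `Φ` is regular at infinity and the exceptional set `Z` is empty; and if `Φ` is regular
at infinity then `Z` is finite, and for all closed `V` over `ℂ` of dimension at most one whose closure
does not meet `Z` and all finitely generated rings `R ⊂ K` there are `n₀` and `Q > 0` such that for
all `α ∈ R^N` and all `n ≥ n₀`: `Φ^n (α) ∈ V` if and only if `Φ^(n+Q) (α) ∈ V`. -/
theorem result (N : ℕ) {d : ℕ} (hd : 2 ≤ d) :
    ∃ Ψ : MvPolynomial (TopCoeff N d) ℤ, Ψ ≠ 0 ∧
      ∀ (K : Type) [Field K] [NumberField K] [Algebra K ℂ] (Φ : Fin N → MvPolynomial (Fin N) K),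
        (∀ i, (Φ i).totalDegree ≤ d) →
        (aeval (fun t : TopCoeff N d => coeff t.2.1 (Φ t.1)) Ψ ≠ 0 →
          RegularAtInfinity d Φ ∧ exceptional d Φ = ∅) ∧
        (RegularAtInfinity d Φ →
          (exceptional d Φ).Finite ∧
            ∀ (I : Ideal (MvPolynomial (Fin N) ℂ)), DimLEOne I →
              (∀ p ∈ exceptional d Φ, ¬ IsPointAtInfinity I p) → ∀ R : Subalgebra ℤ K, R.FG →
                ∃ n₀ Q : ℕ, 0 < Q ∧ ∀ α : Fin N → K, (∀ i, α i ∈ R) → ∀ n, n₀ ≤ n →
                  (n ∈ returnSet Φ α I ↔ n + Q ∈ returnSet Φ α I)) := by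
  obtain ⟨Ψ, hΨ, h⟩ := Pool.Agent.Helper61.DG.generic N hd
  refine ⟨Ψ, hΨ, fun K _ _ _ Φ hdeg => ⟨fun hΦ => ?_, fun hΦ => off hd Φ hΦ⟩⟩
  obtain ⟨hreg, hper⟩ := h K Φ hdeg hΦ
  refine ⟨⟨hreg.1, fun z hz => hreg.2 z (funext hz)⟩, ?_⟩
  rw [Set.eq_empty_iff_forall_notMem]
  rintro p ⟨L, iF, iA, j, z, h, -, -, -, ⟨k, hk, hk'⟩, hall⟩
  have hz : z ≠ 0 := by
    rintro rfl
    apply h
    funext i
    exact map_zero j
  obtain ⟨k1, hk1, hk1', hlt⟩ := hper L j z hz ⟨k, hk, hk'⟩
  exact absurd (hall k1 ⟨hk1, hk1'⟩) (not_le.2 hlt)

end Pool.Agent.Results.MP_295d38_ag.UniformCurves
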